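import Pool.Agent.N164.H.AvgK8
import Pool.Agent.N870.H.Stm8
import Pool.Agent.Y419.Z8.CntS
import Pool.Agent.Y945.Z8.RNKS
import Pool.Agent.Y723.Z8.ChrZ

/-!
# Project H (helper870), job AVG8 (by helper164)
-/

set_option autoImplicit false

namespace Pool.Agent.N164.H

/-- **H/AVG8** -/
theorem t_AVG8 : Pool.Agent.N870.H.S_AVG8 := by
  intro k E hE h3 B
  exact avgk_of Pool.Agent.W307.SE.SN_nonneg k hE (Pool.Agent.Y419.Z8.cnts_of Pool.Agent.Y723.Z8.Chr.chr)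
    Pool.Agent.Y945.Z8.rnks h3 B

end Pool.Agent.N164.H
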