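import Mathlib
import Pool.Agent.Y383.Z8.AvgS

/-!
# Project H (helper870), job AVG8 (by helper164): the average of the `k`-th powers over a short square, with growth

After `Pool.Agent.Y383.Z8.AvgS` (helper383) and `Pool.Agent.N870.D.Avg` (helper870).
-/

set_option autoImplicit false

namespace Pool.Agent.N164.H

open Finset Pool.Agent.W262.RK Pool.Agent.W307.RT Pool.Agent.TH841.PT Pool.Agent.Y723.Z8
open Pool.Agent.Y455.Z8 (pr8_Gd F8_ne rr8_bd NBT_nonneg antx)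
open Pool.Agent.W782.RS (Th small)
open Pool.Agent.W307.SE (SN GGg SN_nonneg)
open Pool.Agent.Y383.Z8

lemma grow_div {A X W1 W2 W3 e p q : ℝ} (he : 0 < e) (hp : 0 < p) (hpq : p ≤ q) (hX : 0 ≤ X)
    (hA : 0 ≤ A) (h1 : 0 ≤ W1) (h2 : 0 ≤ W2) (h3 : 0 ≤ W3) :
    A * X * W1 * W2 * W3 / e ≤ A * (X * q) * W1 * W2 * W3 / (e * p) := by
  rw [div_le_div_iff₀ he (mul_pos he hp)]
  have h0 : 0 ≤ A * X * W1 * W2 * W3 * e := by positivity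
  nlinarith [mul_le_mul_of_nonneg_left hpq h0]

/-- **the average of the `k0`-th powers over a short square, with growth** -/
theorem avgk_of {Rf : ℤ → ℤ → ℝ} (hRf0 : ∀ A B, 0 ≤ Rf A B) (k0 : ℕ) {E : ℝ} (hE : 0 ≤ E)
    (h1 : S_CNTS) (h2 : RG8 Rf)
    (h3 : ∃ z0 : ℕ, ∀ z, z0 ≤ z → ∃ C : ℝ, ∀ y, z < y →
      ∑ s ∈ Tup (Fin 7 × Bool) z y, NBT cls8 e8 s ^ k0 * ∏ i, gp (rr8 i) 10 (s i) ≤
        C * (Real.log y) ^ ((7 : ℝ) + E)) :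
    ∀ B : ℕ, ∃ C : ℝ, ∀ (N1 N2 : ℤ) (X : ℕ), 1 ≤ X → N1.natAbs ≤ X ^ B →
    N2.natAbs ≤ X ^ B →
      ∑ t ∈ Icc 1 X ×ˢ Icc 1 X, GGg (fun A B => Rf A B ^ k0) M8 N8
        (N1 + (t.1 : ℤ), N2 + (t.2 : ℤ)) ≤ C * (X ^ 2 * (1 + Real.log X) ^ E) := by
  classical
  intro B
  obtain ⟨Rk, hRk⟩ : ∃ Rk : ℤ → ℤ → ℝ, Rk = fun A B => Rf A B ^ k0 := ⟨_, rfl⟩
  have hRf : ∀ A B, 0 ≤ Rk A B := fun A B => by rw [hRk]; exact pow_nonneg (hRf0 A B) k0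
  rw [← hRk]
  obtain ⟨z1, hz1⟩ := h1
  obtain ⟨z2, hz2⟩ := h2
  obtain ⟨z3, hz3⟩ := h3
  obtain ⟨z, hz⟩ : ∃ z : ℕ, z = z1 + z2 + z3 + 22 := ⟨_, rfl⟩
  obtain ⟨Cc, K, y0, hCc0, hK1, hcn⟩ := hz1 z (by omega) B
  obtain ⟨CR, D, hCR0, hD1, hrn⟩ := hz2 z (by omega)
  obtain ⟨CM, hCM⟩ := hz3 z (by omega)
  have hlog : ∀ y : ℕ, z < y → 0 < Real.log y := fun y hy =>
    Real.log_pos (by exact_mod_cast (by omega : 1 < y))
  have hgn : ∀ {y' : ℕ} {s : Fin 7 × Bool → ℕ} (_ : s ∈ Tup (Fin 7 × Bool) z y')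
      (i : Fin 7 × Bool), 0 ≤ gp (rr8 i) 10 (s i) := fun hs i =>
    RSPf.gp_nonneg (fun p => (rr8_bd i p).1) (by omega)
      ((Pool.Agent.W405.RK2.mem_Tup.1 hs).1 i)
  suffices key : ∃ C2 : ℝ, ∀ θ : Th B, ∑ t ∈ TS8 θ.1.1 θ.1.2.1 θ.1.2.2,
      rr0 Rk θ.1.1 θ.1.2.1 t ≤ C2 * ((θ.1.2.2 : ℝ) ^ 2 * (1 + Real.log (θ.1.2.2 : ℝ)) ^ E) by
    obtain ⟨C2, hC2⟩ := key
    refine ⟨C2, fun N1 N2 X hX h4 h5 => ?_⟩
    rw [sum_GGg]
    exact hC2 ⟨(N1, N2, X), hX, h4, h5⟩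
  refine antx (Fin 7 × Bool) (ℕ × ℕ) (Th B)
    (fun θ => TS8 θ.1.1 θ.1.2.1 θ.1.2.2)
    (fun θ => θ.1.2.2) (fun θ t => pr8 z (θ.1.1 + (t.1 : ℤ)) (θ.1.2.1 + (t.2 : ℤ)))
    (fun θ => (θ.1.2.2 : ℝ) ^ 2 * (1 + Real.log (θ.1.2.2 : ℝ)) ^ E) z
    (fun y => (Real.log y) ^ ((7 : ℝ) + E))
    (fun s => NBT cls8 e8 s ^ k0 * ∏ i, gp (rr8 i) 10 (s i))
    (fun v => ∏ i, (((4 : ℝ) ^ k0) ^ (v i).primeFactors.card * (gp (rr8 i) 10 (v i) / v i)))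
    (fun w => ∏ i, ((2 : ℝ) ^ (w i).primeFactors.card / (w i : ℝ)))
    (fun θ t => rr0 Rk θ.1.1 θ.1.2.1 t) (Cc * CR ^ k0) ((D ^ (B + 2)) ^ k0) K (y0 + 2)
    (by omega) (fun y hy => Real.rpow_pos_of_pos (hlog y hy) _)
    (fun θ => θ.2.1) (fun θ => by
      have := Real.log_natCast_nonneg θ.1.2.2
      positivity) (fun X0 => ?_) (fun θ t ht => ?_)
    (fun θ t => rr0_nonneg hRf _ _ _) (mul_nonneg hCc0 (pow_nonneg hCR0 _))
    (one_le_pow₀ (one_le_pow₀ hD1)) hK1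
    (fun y s hs => ⟨?_, ?_⟩) (fun y Y hzy w hw => ?_) (fun lam hlam => ?_)
    (fun lam hlam => ?_) (fun lam hlam => ?_) ?_
  · -- small scales
    obtain ⟨E', hE0, hE'⟩ := small (fun N1 N2 X => ∑ t ∈ TS8 N1 N2 X, rr0 Rk N1 N2 t)
      (fun _ _ _ => sum_nonneg fun _ _ => rr0_nonneg hRf _ _ _) B X0
    refine ⟨E', fun θ hθ => ?_⟩
    refine (hE' θ.1.1 θ.1.2.1 θ.1.2.2 θ.2.1 hθ θ.2.2.1 θ.2.2.2).trans ?_
    have h4 : (1 : ℝ) ≤ (θ.1.2.2 : ℝ) ^ 2 := one_le_pow₀ (by exact_mod_cast θ.2.1)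
    have h5 : (1 : ℝ) ≤ (1 + Real.log (θ.1.2.2 : ℝ)) ^ E :=
      Real.one_le_rpow (by have := Real.log_natCast_nonneg θ.1.2.2; linarith) hE
    exact le_mul_of_one_le_right hE0 (one_le_mul_of_one_le_of_one_le h4 h5)
  · have h4 := (mem_TS8.1 ht).2
    exact pr8_Gd (by omega) h4.1 (F8_ne h4.2.1 h4.2.2.1 h4.2.2.2)
  · exact mul_nonneg (pow_nonneg (NBT_nonneg _ _ _) _) (prod_nonneg fun i _ => hgn hs i)
  · exact prod_nonneg fun i _ => mul_nonneg (by positivity)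
      (div_nonneg (hgn hs i) (Nat.cast_nonneg _))
  · exact prod_nonneg fun i _ => by positivity
  · -- the first sum
    obtain ⟨A, hA⟩ := RSPf.rsp (Fin 7 × Bool) z 10 rr8 (fun s => NBT cls8 e8 s ^ k0)
      (fun y => CM * (Real.log y) ^ ((7 : ℝ) + E)) (4 ^ k0) lam (by omega) rr8_bd
      (one_le_pow₀ (by norm_num)) hlam (fun s => pow_nonneg (NBT_nonneg _ _ _) _)
      (fun y hy s e' hse => by
        have h4 := SubT.subt (Fin 7 × Bool) cls8 e8 z y (by omega) s e' hse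
        refine (pow_le_pow_left₀ (NBT_nonneg _ _ _) h4 k0).trans (le_of_eq ?_)
        rw [mul_pow, ← pow_mul, ← pow_mul, mul_comm k0])
      (fun y hy => hCM y hy)
    refine ⟨A * CM, fun y hy => ?_⟩
    have := hA y hy
    rw [mul_assoc]
    exact this
  · exact RVU.rvp (Fin 7 × Bool) z 10 rr8 (4 ^ k0) lam (by omega) rr8_bd
      (one_le_pow₀ (by norm_num)) hlam
  · exact RVU.rup (Fin 7 × Bool) 2 lam (by norm_num) hlam
  -- the local majorant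
  rintro ⟨⟨N1, N2, X⟩, hX1, hN1, hN2⟩ y Y k hy0 hzy hyK hk s hs v hv w hw h8 T' hT' hval
  simp only at hX1 hN1 hN2 hyK hk h8 hT' hval ⊢
  have hX2 : 2 ≤ X := by
    have h4 : y ≤ y ^ K := Nat.le_self_pow (by omega) y
    omega
  have hyX : y ≤ X := le_trans (Nat.le_self_pow (by omega) y) hyK
  obtain ⟨W, hW⟩ : ∃ W : ℝ, W = (CR * (D ^ (B + 2)) ^ k *
      4 ^ (∑ i, (v i).primeFactors.card) * NBT cls8 e8 s) ^ k0 := ⟨_, rfl⟩
  have hW0 : 0 ≤ W := by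
    rw [hW]
    exact pow_nonneg (mul_nonneg (by positivity) (NBT_nonneg _ _ _)) _
  have e1 : ∀ t ∈ T', rr0 Rk N1 N2 t ≤ W := by
    intro t ht
    have h4 := mem_TS8.1 (hT' ht)
    obtain ⟨hts, htv, _⟩ := hval t ht
    have h5 := mem_product.1 h4.1
    rw [mem_Icc, mem_Icc] at h5
    have hk' : X ^ (B + 2) < (y + 1) ^ (k * (B + 2)) := by
      rw [pow_mul]
      exact Nat.pow_lt_pow_left hk (by omega)
    have h6 := hrn (X ^ (B + 2)) y (k * (B + 2)) (N1 + (t.1 : ℤ)) (N2 + (t.2 : ℤ)) h4.2.1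
      (F8_ne h4.2.2.1 h4.2.2.2.1 h4.2.2.2.2) (abs_le_pow hX2 hN1 h5.1.2)
      (abs_le_pow hX2 hN2 h5.2.2) (Nat.one_le_pow _ _ (by omega)) hzy hk'
    rw [hts, htv, pow_mul'] at h6
    rw [hW, rr0, hRk]
    exact pow_le_pow_left₀ (hRf0 _ _) h6 k0
  have e3 : (T'.card : ℝ) ≤ Cc * X ^ 2 * (∏ i, gp (rr8 i) 10 (s i)) *
      (∏ i, gp (rr8 i) 10 (v i) / v i) * (∏ i, 2 ^ (w i).primeFactors.card / (w i : ℝ)) /
        (Real.log y) ^ 7 := by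
    refine le_trans (Nat.cast_le.2 (card_le_card ?_))
      (hcn N1 N2 X y Y hN1 hN2 (by omega) hzy hyK s hs v hv w hw h8)
    intro t ht
    have h5 := mem_TS8.1 (hT' ht)
    have h6 := hval t ht
    exact mem_filter.2 ⟨h5.1, h5.2.1, F8_ne h5.2.2.1 h5.2.2.2.1 h5.2.2.2.2, h6.1, h6.2.1,
      h6.2.2⟩
  have hly := hlog y hzy
  have hlX : Real.log y ≤ 1 + Real.log X := by
    have := Real.log_le_log (by exact_mod_cast (by omega : 0 < y))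
      (show (y : ℝ) ≤ X by exact_mod_cast hyX)
    linarith
  have hpow : (Real.log y) ^ E ≤ (1 + Real.log X) ^ E := Real.rpow_le_rpow hly.le hlX hE
  have hP : 0 < (Real.log y) ^ E := Real.rpow_pos_of_pos hly _
  have hspl : (Real.log y) ^ ((7 : ℝ) + E) = (Real.log y) ^ 7 * (Real.log y) ^ E := by
    rw [Real.rpow_add hly]
    congr 1
    exact_mod_cast Real.rpow_natCast (Real.log y) 7
  calc ∑ t ∈ T', rr0 Rk N1 N2 t ≤ ∑ _t ∈ T', W := sum_le_sum e1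
    _ = (T'.card : ℝ) * W := by rw [sum_const, nsmul_eq_mul]
    _ ≤ _ := mul_le_mul_of_nonneg_right e3 hW0
    _ = (Cc * CR ^ k0) * ((D ^ (B + 2)) ^ k0) ^ k * (X : ℝ) ^ 2 *
          (NBT cls8 e8 s ^ k0 * ∏ i, gp (rr8 i) 10 (s i)) *
          (∏ i, (((4 : ℝ) ^ k0) ^ (v i).primeFactors.card * (gp (rr8 i) 10 (v i) / v i))) *
          (∏ i, ((2 : ℝ) ^ (w i).primeFactors.card / (w i : ℝ))) / (Real.log y) ^ 7 := by
        rw [hW, prod_mul_distrib (f := fun i => ((4 : ℝ) ^ k0) ^ (v i).primeFactors.card),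
          prod_pow_eq_pow_sum, mul_pow, mul_pow, mul_pow, ← pow_mul (D ^ (B + 2)) k k0,
          ← pow_mul (D ^ (B + 2)) k0 k, mul_comm k k0, ← pow_mul (4 : ℝ) _ k0,
          ← pow_mul (4 : ℝ) k0, mul_comm k0 (∑ i, (v i).primeFactors.card)]
        ring
    _ ≤ _ := by
        rw [hspl]
        exact grow_div (pow_pos hly 7) hP hpow (by positivity)
          (by positivity)
          (mul_nonneg (pow_nonneg (NBT_nonneg _ _ _) _) (prod_nonneg fun i _ => hgn hs i))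
          (prod_nonneg fun i _ => mul_nonneg (by positivity)
            (div_nonneg (hgn hv i) (Nat.cast_nonneg _)))
          (prod_nonneg fun i _ => by positivity)

end Pool.Agent.N164.H
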